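import Mathlib

namespace Pool.Agent.Results.MP_01ee34_gt.Disproof

/-- The unit sphere `S^d` in `ℝ^{d+1}`. -/
def sph (d : ℕ) : Set (Fin (d + 1) → ℝ) := {x | ∑ i, x i ^ 2 = 1}

/-- `F` contains a congruent copy of `A`: some rotation (an element of `SO(d+1)`)
maps `A` into `F`. -/
def ContainsCopy {d : ℕ} (F A : Set (Fin (d + 1) → ℝ)) : Prop :=
  ∃ M ∈ Matrix.specialOrthogonalGroup (Fin (d + 1)) ℝ, M.mulVec '' A ⊆ F

/-- The conjecture in dimension `d` for covers by `m` closed sets. -/
def Holds (d m : ℕ) : Prop :=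
  ∀ F : Fin m → Set (Fin (d + 1) → ℝ), (∀ i, IsClosed (F i)) → (⋃ i, F i) = sph d →
    ∃ i, ∀ A : Set (Fin (d + 1) → ℝ), A ⊆ sph d → A.Finite →
      (A.ncard : ℤ) = (d : ℤ) - (m : ℤ) + 3 → ContainsCopy (F i) A

lemma sph_closed (d : ℕ) : IsClosed (sph d) :=
  isClosed_eq (by fun_prop) continuous_const

/-- three unit vectors at mutual angle 120 degrees -/
noncomputable def tri (i : Fin 3) : Fin 3 → ℝ :=
  ![![(1 : ℝ), 0, 0], ![-1/2, Real.sqrt 3 / 2, 0], ![-1/2, -(Real.sqrt 3 / 2), 0]] i

lemma tri_sum : tri 0 + tri 1 + tri 2 = 0 := by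
  ext i
  fin_cases i <;> simp [tri]; ring

lemma tri_norm (i : Fin 3) : tri i ∈ sph 2 := by
  have h3 : Real.sqrt 3 ^ 2 = 3 := Real.sq_sqrt (by norm_num)
  fin_cases i <;> simp [tri, sph, Fin.sum_univ_three] <;> nlinarith [h3]

lemma tri_inj : Function.Injective tri := by
  have h3 : 0 < Real.sqrt 3 := Real.sqrt_pos.mpr (by norm_num)
  intro i j h
  have h0 := congrFun h 0
  have h1 := congrFun h 1
  fin_cases i <;> fin_cases j <;> simp [tri] at h0 h1 ⊢ <;> linarith

/-- the standard basis -/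
def bas (i : Fin 3) : Fin 3 → ℝ := Pi.single i 1

theorem result : ¬ ∀ d m : ℕ, 1 ≤ d → 1 ≤ m → Holds d m := by
  intro H
  have hc : Continuous fun x : Fin 3 → ℝ => |x 2| := by fun_prop
  obtain ⟨i, hi⟩ := H 2 2 (by norm_num) (by norm_num)
    ![{x | x ∈ sph 2 ∧ |x 2| ≤ 11/20}, {x | x ∈ sph 2 ∧ 11/20 ≤ |x 2|}]
    (by
      intro i
      fin_cases i
      · exact (sph_closed 2).inter (isClosed_le hc continuous_const)
      · exact (sph_closed 2).inter (isClosed_le continuous_const hc))
    (by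
      ext x
      simp only [Set.mem_iUnion, Fin.exists_fin_two]
      constructor
      · rintro (h | h)
        · exact h.1
        · exact h.1
      · intro h
        rcases le_total (|x 2|) (11/20) with h' | h'
        · exact Or.inl ⟨h, h'⟩
        · exact Or.inr ⟨h, h'⟩)
  fin_cases i
  · simp only [Fin.zero_eta, Fin.isValue, Matrix.cons_val_zero] at hi
    obtain ⟨M, hM, hρ⟩ := hi (Set.range bas)
      (by
        rintro x ⟨j, rfl⟩
        fin_cases j <;> simp [bas, sph, Fin.sum_univ_three])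
      (Set.finite_range _)
      (by
        rw [← Set.image_univ, Set.ncard_image_of_injective]
        · simp
        · intro a b hab
          by_contra hne
          have := congrFun hab a
          simp [bas, hne] at this)
    have hb : ∀ j, |M 2 j| ≤ 11/20 := by
      intro j
      have : M.mulVec (bas j) ∈ M.mulVec '' Set.range bas := ⟨bas j, ⟨j, rfl⟩, rfl⟩
      have h2 := (hρ this).2
      simpa [bas] using h2
    have hM2 : M * star M = 1 :=
      Matrix.mem_unitaryGroup_iff.mp (Matrix.mem_specialUnitaryGroup_iff.mp hM).1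
    have hsum := congrFun (congrFun hM2 2) 2
    simp only [Matrix.mul_apply, Matrix.star_apply, star_trivial,
      Matrix.one_apply_eq] at hsum
    replace hsum : ∑ x : Fin 3, M 2 x * M 2 x = 1 := hsum
    rw [Fin.sum_univ_three] at hsum
    have hh : ∀ j : Fin 3, M 2 j * M 2 j ≤ (11/20 : ℝ)^2 := by
      intro j
      rw [← abs_mul_abs_self, ← pow_two]
      exact pow_le_pow_left₀ (abs_nonneg _) (hb j) 2
    have h0 := hh 0
    have h1 := hh 1
    have h2 := hh 2
    norm_num at h0 h1 h2 hsum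
    linarith
  · simp only [Fin.mk_one, Fin.isValue, Matrix.cons_val_one, Matrix.cons_val_fin_one] at hi
    obtain ⟨M, hM, hρ⟩ := hi (Set.range tri)
      (by
        rintro x ⟨j, rfl⟩
        exact tri_norm j)
      (Set.finite_range _)
      (by
        rw [← Set.image_univ, Set.ncard_image_of_injective _ tri_inj]
        simp)
    have hF : ∀ j, M.mulVec (tri j) ∈ {x : Fin 3 → ℝ | x ∈ sph 2 ∧ 11/20 ≤ |x 2|} := by
      intro j
      exact hρ ⟨tri j, ⟨j, rfl⟩, rfl⟩
    have hb : ∀ j, 11/20 ≤ |M.mulVec (tri j) 2| := fun j => (hF j).2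
    have hu : ∀ j, |M.mulVec (tri j) 2| ≤ 1 := by
      intro j
      have : ∑ i : Fin 3, (M.mulVec (tri j) i) ^ 2 = 1 := (hF j).1
      rw [Fin.sum_univ_three] at this
      rw [abs_le]
      constructor <;> nlinarith [sq_nonneg (M.mulVec (tri j) 0), sq_nonneg (M.mulVec (tri j) 1)]
    have hs : M.mulVec (tri 0) 2 + M.mulVec (tri 1) 2 + M.mulVec (tri 2) 2 = 0 := by
      have : M.mulVec (tri 0 + tri 1 + tri 2) 2 = 0 := by rw [tri_sum]; simp
      rw [Matrix.mulVec_add, Matrix.mulVec_add] at this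
      exact this
    have a0 := hb 0
    have a1 := hb 1
    have a2 := hb 2
    have b0 := hu 0
    have b1 := hu 1
    have b2 := hu 2
    rw [le_abs] at a0 a1 a2
    rw [abs_le] at b0 b1 b2
    rcases a0 with a0 | a0 <;> rcases a1 with a1 | a1 <;> rcases a2 with a2 | a2 <;>
      linarith [b0.1, b0.2, b1.1, b1.2, b2.1, b2.2]

end Pool.Agent.Results.MP_01ee34_gt.Disproof
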